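import Pool.Agent.H56.Sub.Main
import Pool.Agent.H56.Sub.BallC

/-!
# MP_e442af_lc : derandomisation and speed-up of local problems on graphs of slow growth

`F` is a class of finite graphs, closed under isomorphism and induced subgraphs (or, more generally,
ball-closed), whose balls of radius `r` have at most `f r` vertices, where
`log (f r) ≤ r / exp ((log r) ^ δ)` for large `r`, for some `δ > 0` (for example
`f r = exp (C * r ^ a)` with `a < 1`).  Every locally checkable labelling problem which a randomised
LOCAL algorithm solves on `F` in `O(log n)` rounds (more generally, in `t n` rounds, where
`log (f (K * (t n + 1))) / log n → 0` for every `K`) is solved on `F` by a deterministic LOCAL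
algorithm in `O(log* n)` rounds.

The proof does not use network decompositions of size depending on `n`.  The randomised algorithm for
graphs with a fixed large number `m` of vertices gives, on all larger graphs, bad events of
probability at most `m ^ (-d)` depending on balls of radius `O(t m)`; these are avoided by a local
algorithm of constant radius, which is given a colouring of a power of the graph: the outer algorithm
is a shattering algorithm with small components, and all its random choices are replaced by weighted
conditional expectations along a decomposition of constant radius and quality, which is correct on the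
whole infinite scale since the weights `q ^ (distance)` are summable.  The decomposition itself
is obtained by ball carving, again with exponential weights.
-/

set_option autoImplicit false

namespace Pool.Agent.Results.MP_e442af_lc.GrowthGap

open Pool.Agent.H56.Sub

/-- On a hereditary (or ball-closed) class of graphs of growth at most `exp (r / exp ((log r) ^ δ))`,
every locally checkable labelling problem with a randomised LOCAL algorithm of complexity `O(log n)`
(or of complexity `t n` with `log (f (K * (t n + 1))) / log n → 0` for all `K`) has a deterministic
LOCAL algorithm of complexity `O(log* n)`. -/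
theorem result {F : Set FinGraph} (hF : IsHereditary F ∨ BallClosed F) {f : ℕ → ℕ} (hf : Tame f)
    (hgr : ∀ X ∈ F, ∀ (v : X.V) (r : ℕ), (bl X.G v r).ncard ≤ f r) {d : ℝ} (hd : 0 < d)
    (P : LCL) (t : ℕ → ℕ)
    (ht : (∃ C : ℝ, ∀ n : ℕ, 2 ≤ n → (t n : ℝ) ≤ C * Real.log n) ∨
      ∀ K : ℕ, Filter.Tendsto (fun n : ℕ => Real.log (f (K * (t n + 1))) / Real.log n)
        Filter.atTop (nhds 0))
    (hr : RandSolvable P F d t) (c : ℕ) :
    ∃ t' : ℕ → ℕ, (∃ K : ℕ, ∀ n, 2 ≤ n → t' n ≤ K * logStar n) ∧ DetSolvable P F c t' := by
  have hF' : BallClosed F := by
    rcases hF with h | h
    · exact h.ballClosed
    · exact h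
  rcases ht with ⟨C, hC⟩ | h
  · exact main_log hF' hf hgr hd P t hC hr c
  · exact main hF' hf hgr hd P t h hr c

end Pool.Agent.Results.MP_e442af_lc.GrowthGap
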