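import Mathlib

/-!
# MP_e442af_lc : classes of graphs of linear growth and a locally checkable labelling problem whose
LOCAL complexity on the class is a prescribed unbounded function `g`; for `g = log₂` the randomised
complexity is `O(log n)` and the deterministic complexity is not `O(log* n)`
-/

set_option autoImplicit false

open MeasureTheory

namespace Pool.Agent.Results.MP_e442af_lc.NoSpeedup

/-! ## Definitions -/

/-- A finite graph with a distinguished vertex and a label from `L` at every vertex. -/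
structure Rooted (L : Type) where
  /-- the vertices -/
  V : Type
  /-- there are finitely many -/
  fin : Finite V
  /-- the graph -/
  G : SimpleGraph V
  /-- the distinguished vertex -/
  root : V
  /-- the labels -/
  lab : V → L

/-- Isomorphism of rooted labelled graphs. -/
def Rooted.Iso {L : Type} (X Y : Rooted L) : Prop :=
  ∃ e : X.G ≃g Y.G, e X.root = Y.root ∧ ∀ v, Y.lab (e v) = X.lab v

/-- The vertices at distance at most `r` from `v`. -/
def ballSet {V : Type} (G : SimpleGraph V) (v : V) (r : ℕ) : Set V := {u | G.edist v u ≤ r}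

theorem mem_ballSet_self {V : Type} (G : SimpleGraph V) (v : V) (r : ℕ) : v ∈ ballSet G v r := by
  simp [ballSet]

/-- The ball `B_G(v,r)` (as an induced subgraph with root `v`) together with the labels on it. -/
def view {L V : Type} [Finite V] (G : SimpleGraph V) (lab : V → L) (v : V) (r : ℕ) :
    Rooted L where
  V := ballSet G v r
  fin := inferInstance
  G := G.induce (ballSet G v r)
  root := ⟨v, mem_ballSet_self G v r⟩
  lab := fun u => lab u

/-- A function of a rooted labelled graph that depends only on its isomorphism type. -/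
structure Rule (L S : Type) where
  /-- the value -/
  out : Rooted L → S
  /-- invariance -/
  inv : ∀ X Y : Rooted L, X.Iso Y → out X = out Y

/-- A finite graph. -/
structure FinGraph where
  /-- the vertices -/
  V : Type
  /-- there are finitely many -/
  fin : Fintype V
  /-- the graph -/
  G : SimpleGraph V

instance (X : FinGraph) : Fintype X.V := X.fin

/-- The number of vertices. -/
def FinGraph.n (X : FinGraph) : ℕ := Fintype.card X.V

/-- A class of finite graphs: closed under isomorphism. -/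
def IsClass (F : Set FinGraph) : Prop :=
  ∀ X Y : FinGraph, X ∈ F → Nonempty (X.G ≃g Y.G) → Y ∈ F

/-- The disjoint union of two finite graphs. -/
def FinGraph.union (X Y : FinGraph) : FinGraph where
  V := X.V ⊕ Y.V
  fin := inferInstance
  G := X.G ⊕g Y.G

/-- The vertices of the connected component of `v`. -/
def comp {V : Type} (G : SimpleGraph V) (v : V) : Set V := {w | G.Reachable v w}

/-- The connected component of the vertex `v` of a finite graph. -/
noncomputable def FinGraph.component (X : FinGraph) (v : X.V) : FinGraph where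
  V := comp X.G v
  fin := Fintype.ofFinite _
  G := X.G.induce (comp X.G v)

/-- Bounded degree and subexponential growth. -/
def SubexpGrowth (F : Set FinGraph) : Prop :=
  ∃ (Δ : ℕ) (f : ℕ → ℕ),
    Filter.Tendsto (fun r : ℕ => Real.log (f r) / r) Filter.atTop (nhds 0) ∧
    ∀ X ∈ F, (∀ v : X.V, (X.G.neighborSet v).ncard ≤ Δ) ∧
      ∀ (v : X.V) (r : ℕ), (ballSet X.G v r).ncard ≤ f r

/-- A locally checkable labelling problem: a finite output alphabet, a radius `r` and a set of
allowed labelled balls of radius `r` (closed under isomorphism). -/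
structure LCL where
  /-- the output alphabet -/
  S : Type
  /-- it is finite -/
  fin : Finite S
  /-- the radius -/
  r : ℕ
  /-- the allowed labelled balls -/
  ok : Rooted S → Prop
  /-- they are closed under isomorphism -/
  inv : ∀ X Y : Rooted S, X.Iso Y → (ok X ↔ ok Y)

/-- `out` solves the problem on `G`: the labelled `r`-ball of every vertex is allowed. -/
def LCL.Solves (P : LCL) {V : Type} [Finite V] (G : SimpleGraph V) (out : V → P.S) : Prop :=
  ∀ v, P.ok (view G out v P.r)

/-- The fair coin. -/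
noncomputable def coin : Measure Bool := (PMF.uniformOfFintype Bool).toMeasure

/-- Independent uniformly random infinite bit strings at the elements of `V`. -/
noncomputable def bits (V : Type) : Measure (V → ℕ → Bool) :=
  Measure.infinitePi fun _ : V => Measure.infinitePi fun _ : ℕ => coin

/-- The problem `P` is solved on the class `F` by a randomised LOCAL algorithm of complexity `t`
with failure probability at most `n ^ (-d)`; the algorithm may depend on the number `n` of
vertices. -/
def RandSolvable (P : LCL) (F : Set FinGraph) (d : ℝ) (t : ℕ → ℕ) : Prop :=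
  ∃ A : ℕ → Rule (ℕ → Bool) P.S, ∀ X ∈ F,
    MeasurableSet {b | P.Solves X.G (fun v => (A X.n).out (view X.G b v (t X.n)))} ∧
    bits X.V {b | ¬ P.Solves X.G (fun v => (A X.n).out (view X.G b v (t X.n)))} ≤
      ENNReal.ofReal ((X.n : ℝ) ^ (-d))

/-- The problem `P` is solved on the class `F` by a deterministic LOCAL algorithm of complexity
`t`, for arbitrary distinct identifiers from `{1, ..., n ^ c}`. -/
def DetSolvable (P : LCL) (F : Set FinGraph) (c : ℕ) (t : ℕ → ℕ) : Prop :=
  ∃ A : ℕ → Rule ℕ P.S, ∀ X ∈ F, ∀ id : X.V → ℕ, Function.Injective id →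
    (∀ v, 1 ≤ id v ∧ id v ≤ X.n ^ c) →
    P.Solves X.G (fun v => (A X.n).out (view X.G id v (t X.n)))

/-- The iterated logarithm: how often `log₂` must be applied to `n` to get a number `≤ 1`. -/
noncomputable def logStar (n : ℕ) : ℕ := sInf {k : ℕ | (Real.logb 2)^[k] n ≤ 1}

/-! ## Proper 2-colouring -/

/-- Proper colouring with two colours. -/
def twoCol : LCL where
  S := Bool
  fin := inferInstance
  r := 1
  ok := fun X => ∀ u, X.G.Adj X.root u → X.lab u ≠ X.lab X.root
  inv := by
    rintro X Y ⟨e, hr, hl⟩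
    constructor
    · intro h u hu
      have h1 : X.G.Adj X.root (e.symm u) := by
        rw [← e.map_adj_iff, hr]; simpa using hu
      have h2 := h _ h1
      rw [← hl, ← hl, hr] at h2
      simpa using h2
    · intro h u hu
      have h1 : Y.G.Adj Y.root (e u) := by
        rw [← hr]; exact e.map_adj_iff.2 hu
      have h2 := h _ h1
      rw [← hr, hl, hl] at h2
      exact h2

theorem twoCol_solves_iff {V : Type} [Finite V] (G : SimpleGraph V) (out : V → Bool) :
    twoCol.Solves G out ↔ ∀ v u, G.Adj v u → out u ≠ out v := by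
  constructor
  · intro h v u hu
    have hm : u ∈ ballSet G v 1 := by
      show G.edist v u ≤ (1 : ℕ)
      exact_mod_cast SimpleGraph.edist_le_one_iff_adj_or_eq.2 (Or.inl hu)
    exact h v ⟨u, hm⟩ hu
  · intro h v u hu
    exact h v u.1 hu

/-- Two-colourings and walks. -/
theorem even_walk_iff {V : Type} {G : SimpleGraph V} {col : V → Bool}
    (h : ∀ u v, G.Adj u v → col u ≠ col v) {u v : V} (p : G.Walk u v) :
    Even p.length ↔ col u = col v := by
  induction p with
  | nil => simp
  | @cons a b c hab q ih =>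
    rw [SimpleGraph.Walk.length_cons, Nat.even_add_one, ih]
    have := h _ _ hab
    cases ha : col a <;> cases hb : col b <;> cases hc : col c <;> simp_all

/-! ## The class -/

/-- Graphs of maximum degree at most 3 and linear growth with a proper 2-colouring for
which all vertices of degree 3 have the same colour, and with a vertex of degree 3 at distance at
most `g s` from every vertex, where `s` is the size of the component of the vertex. -/
def cls (g : ℕ → ℕ) : Set FinGraph := {X |
  (∀ v, (X.G.neighborSet v).ncard ≤ 3) ∧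
  (∀ v r, (ballSet X.G v r).ncard ≤ 4 * r + 2) ∧
  (∃ side : X.V → Bool, (∀ u v, X.G.Adj u v → side u ≠ side v) ∧
    ∀ v, (X.G.neighborSet v).ncard = 3 → side v = true) ∧
  ∀ v, ∃ u, (X.G.neighborSet u).ncard = 3 ∧
    X.G.edist v u ≤ (g (comp X.G v).ncard : ℕ)}

theorem comp_iso {V W : Type} {G : SimpleGraph V} {H : SimpleGraph W} (e : G ≃g H)
    (v : V) : (comp H (e v)).ncard = (comp G v).ncard := by
  have : comp H (e v) = e '' comp G v := by
    ext w
    constructor
    · intro h
      refine ⟨e.symm w, ?_, by simp⟩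
      have h' : H.Reachable (e v) w := h
      have h2 := h'.map e.symm.toHom
      show G.Reachable v (e.symm w)
      simpa using h2
    · rintro ⟨x, hx, rfl⟩
      have hx' : G.Reachable v x := hx
      exact hx'.map e.toHom
  rw [this, Set.ncard_image_of_injective _ e.injective]

theorem comp_le (X : FinGraph) (v : X.V) : (comp X.G v).ncard ≤ X.n := by
  have h := Set.ncard_le_ncard (Set.subset_univ (comp X.G v)) (Set.toFinite _)
  rw [Set.ncard_univ, Nat.card_eq_fintype_card] at h
  exact h

theorem ncard_neighborSet_iso {V W : Type} {G : SimpleGraph V} {H : SimpleGraph W} (e : G ≃g H)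
    (v : V) : (H.neighborSet (e v)).ncard = (G.neighborSet v).ncard := by
  have : H.neighborSet (e v) = e '' G.neighborSet v := by
    ext w
    simp only [SimpleGraph.mem_neighborSet, Set.mem_image]
    constructor
    · intro h
      refine ⟨e.symm w, ?_, by simp⟩
      rw [← e.map_adj_iff]; simpa using h
    · rintro ⟨x, hx, rfl⟩
      exact e.map_adj_iff.2 hx
  rw [this, Set.ncard_image_of_injective _ e.injective]

theorem edist_iso_le {V W : Type} {G : SimpleGraph V} {H : SimpleGraph W} (e : G ≃g H)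
    (u v : V) : H.edist (e u) (e v) ≤ G.edist u v := by
  by_cases h : G.edist u v = ⊤
  · rw [h]; exact le_top
  · obtain ⟨p, hp⟩ := SimpleGraph.exists_walk_of_edist_ne_top h
    rw [← hp]
    have := SimpleGraph.edist_le (p.map e.toHom)
    simpa using this

theorem edist_iso {V W : Type} {G : SimpleGraph V} {H : SimpleGraph W} (e : G ≃g H)
    (u v : V) : H.edist (e u) (e v) = G.edist u v := by
  refine le_antisymm (edist_iso_le e u v) ?_
  have := edist_iso_le e.symm (e u) (e v)
  simpa using this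

theorem ballSet_iso {V W : Type} {G : SimpleGraph V} {H : SimpleGraph W} (e : G ≃g H)
    (v : V) (r : ℕ) : (ballSet H (e v) r).ncard = (ballSet G v r).ncard := by
  have : ballSet H (e v) r = e '' ballSet G v r := by
    ext w
    constructor
    · intro h
      refine ⟨e.symm w, ?_, by simp⟩
      have h' : H.edist (e v) w ≤ r := h
      show G.edist v (e.symm w) ≤ r
      rw [← edist_iso e]; simpa using h'
    · rintro ⟨x, hx, rfl⟩
      show H.edist (e v) (e x) ≤ r
      rw [edist_iso e]; exact hx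
  rw [this, Set.ncard_image_of_injective _ e.injective]

theorem cls_isClass (g : ℕ → ℕ) : IsClass (cls g) := by
  rintro X Y ⟨h2, h3, ⟨side, h4, h5⟩, h6⟩ ⟨e⟩
  refine ⟨?_, ?_, ⟨fun v => side (e.symm v), ?_, ?_⟩, ?_⟩
  · intro v
    have := h2 (e.symm v)
    rw [← ncard_neighborSet_iso e] at this
    simpa using this
  · intro v r
    have := h3 (e.symm v) r
    rw [← ballSet_iso e] at this
    simpa using this
  · intro u v huv
    exact h4 _ _ (e.symm.map_adj_iff.2 huv)
  · intro v hv
    apply h5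
    rw [← ncard_neighborSet_iso e]
    simpa using hv
  · intro v
    obtain ⟨u, hu, hd⟩ := h6 (e.symm v)
    refine ⟨e u, ?_, ?_⟩
    · rw [ncard_neighborSet_iso]; exact hu
    · have h7 := edist_iso e (e.symm v) u
      have h9 := comp_iso e (e.symm v)
      have h8 : e (e.symm v) = v := by simp
      rw [h8] at h7 h9
      rw [h7, h9]; exact hd

/-! ## The algorithm -/

/-- Output `true` if some vertex of the view with at least three neighbours in the view is joined
to the root by a walk of even length in the view. -/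
noncomputable def rule (L : Type) : Rule L Bool := by
  classical
  exact
  { out := fun X => decide (∃ u, 3 ≤ (X.G.neighborSet u).ncard ∧
      ∃ p : X.G.Walk X.root u, Even p.length)
    inv := by
      rintro X Y ⟨e, hr, hl⟩
      congr 1
      apply propext
      constructor
      · rintro ⟨u, hu, p, hp⟩
        refine ⟨e u, ?_, ?_⟩
        · rw [ncard_neighborSet_iso]; exact hu
        · rw [← hr]
          refine ⟨p.map e.toHom, ?_⟩
          simpa using hp
      · rintro ⟨u, hu, p, hp⟩
        refine ⟨e.symm u, ?_, ?_⟩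
        · rw [ncard_neighborSet_iso]; exact hu
        · have : X.root = e.symm Y.root := by rw [← hr]; simp
          rw [this]
          refine ⟨p.map e.symm.toHom, ?_⟩
          simpa using hp }

theorem rule_out_eq_true {L : Type} (X : Rooted L) :
    (rule L).out X = true ↔ ∃ u, 3 ≤ (X.G.neighborSet u).ncard ∧
      ∃ p : X.G.Walk X.root u, Even p.length := by
  simp [rule]

/-- A walk of length at most `t` lives in the ball of radius `t`. -/
theorem walk_in_ball {V : Type} {G : SimpleGraph V} (v : V) (t : ℕ) :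
    ∀ (k : ℕ), k ≤ t → ∀ (u : V) (p : G.Walk v u), p.length = k →
      ∃ hu : u ∈ ballSet G v t,
        ∃ q : (G.induce (ballSet G v t)).Walk ⟨v, mem_ballSet_self G v t⟩ ⟨u, hu⟩,
          q.length = k := by
  intro k
  induction k with
  | zero =>
    intro _ u p hp
    have : v = u := SimpleGraph.Walk.eq_of_length_eq_zero hp
    subst this
    exact ⟨mem_ballSet_self G v t, SimpleGraph.Walk.nil, rfl⟩
  | succ k ih =>
    intro hk u p hp
    have hu : u ∈ ballSet G v t := by
      show G.edist v u ≤ (t : ℕ)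
      refine (SimpleGraph.edist_le p).trans ?_
      rw [hp]; exact_mod_cast hk
    obtain ⟨w, q, h, hpq⟩ : ∃ (w : V) (q : G.Walk v w) (h : G.Adj w u), p = q.concat h := by
      cases p with
      | nil => simp at hp
      | cons h p' =>
        obtain ⟨w, q, h', hq⟩ := SimpleGraph.Walk.exists_cons_eq_concat h p'
        exact ⟨w, q, h', hq⟩
    have hq : q.length = k := by
      rw [hpq, SimpleGraph.Walk.length_concat] at hp
      omega
    obtain ⟨hw, q', hq'⟩ := ih (by omega) w q hq
    have hadj : (G.induce (ballSet G v t)).Adj ⟨w, hw⟩ ⟨u, hu⟩ := h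
    refine ⟨hu, q'.concat hadj, ?_⟩
    rw [SimpleGraph.Walk.length_concat, hq']

theorem induce_walk {V : Type} {G : SimpleGraph V} {s : Set V} {x y : s}
    (p : (G.induce s).Walk x y) : ∃ q : G.Walk x.1 y.1, q.length = p.length := by
  induction p with
  | nil => exact ⟨SimpleGraph.Walk.nil, rfl⟩
  | @cons a b c h p ih =>
    obtain ⟨q, hq⟩ := ih
    have h' : G.Adj a.1 b.1 := h
    exact ⟨SimpleGraph.Walk.cons h' q, by simp [hq]⟩

/-- The algorithm outputs the colour given by the 2-colouring of the definition of the class. -/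
theorem rule_correct {V L : Type} [Finite V] {G : SimpleGraph V} {k : ℕ} {side : V → Bool}
    (hdeg : ∀ v, (G.neighborSet v).ncard ≤ 3)
    (hside : ∀ u v, G.Adj u v → side u ≠ side v)
    (hthree : ∀ v, (G.neighborSet v).ncard = 3 → side v = true)
    (lab : V → L) (v : V)
    (hnear : ∃ u, (G.neighborSet u).ncard = 3 ∧ G.edist v u ≤ (k : ℕ)) :
    (rule L).out (view G lab v (k + 1)) = side v := by
  have key : (rule L).out (view G lab v (k + 1)) = true ↔ side v = true := by
    rw [rule_out_eq_true]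
    constructor
    · rintro ⟨u, hu, p, hp⟩
      have h1 : 3 ≤ (G.neighborSet u.1).ncard := by
        refine hu.trans ?_
        have hsub : Subtype.val '' ((view G lab v (k + 1)).G.neighborSet u) ⊆
            G.neighborSet u.1 := by
          rintro _ ⟨w, hw, rfl⟩
          exact hw
        rw [← Set.ncard_image_of_injective ((view G lab v (k + 1)).G.neighborSet u)
          Subtype.val_injective]
        exact Set.ncard_le_ncard hsub (Set.toFinite _)
      have h2 : side u.1 = true := hthree _ (le_antisymm (hdeg _) h1)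
      obtain ⟨q, hq⟩ := induce_walk (G := G) (s := ballSet G v (k + 1)) p
      have h3 : Even q.length := by
        rw [hq]; exact hp
      rw [even_walk_iff hside] at h3
      rw [← h2]
      exact h3
    · intro hv
      obtain ⟨u, hu, hd⟩ := hnear
      have hne : G.edist v u ≠ ⊤ := by
        intro h; rw [h] at hd; simp at hd
      obtain ⟨p, hp⟩ := SimpleGraph.exists_walk_of_edist_ne_top hne
      have hpk : p.length ≤ k := by
        rw [← hp] at hd; exact_mod_cast hd
      obtain ⟨hub, q, hq⟩ := walk_in_ball v (k + 1) p.length (by omega) u p rfl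
      refine ⟨⟨u, hub⟩, ?_, q, ?_⟩
      · rw [← hu]
        have hsub : G.neighborSet u ⊆
            Subtype.val '' ((view G lab v (k + 1)).G.neighborSet ⟨u, hub⟩) := by
          intro w hw
          have hwb : w ∈ ballSet G v (k + 1) := by
            show G.edist v w ≤ ((k + 1 : ℕ) : ℕ∞)
            have hw' : G.Adj u w := hw
            have h1 := SimpleGraph.edist_le (p.concat hw')
            rw [SimpleGraph.Walk.length_concat] at h1
            exact h1.trans (by exact_mod_cast (by omega : p.length + 1 ≤ k + 1))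
          exact ⟨⟨w, hwb⟩, hw, rfl⟩
        rw [← Set.ncard_image_of_injective ((view G lab v (k + 1)).G.neighborSet ⟨u, hub⟩)
          Subtype.val_injective]
        exact Set.ncard_le_ncard hsub (Set.toFinite _)
      · have h3 : Even p.length := by
          rw [even_walk_iff hside, hv, hthree u hu]
        rw [← hq] at h3; exact h3
  cases h1 : (rule L).out (view G lab v (k + 1)) <;> cases h2 : side v <;> simp_all

theorem cls_solves {g : ℕ → ℕ} (hg : Monotone g) {L : Type} (X : FinGraph) (hX : X ∈ cls g)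
    (lab : X.V → L) :
    twoCol.Solves X.G (fun v => (rule L).out (view X.G lab v (g X.n + 1))) := by
  obtain ⟨h2, _, ⟨side, h4, h5⟩, h6⟩ := hX
  rw [twoCol_solves_iff]
  intro v u hvu
  have h7 : ∀ v, ∃ u, (X.G.neighborSet u).ncard = 3 ∧ X.G.edist v u ≤ (g X.n : ℕ) := by
    intro v
    obtain ⟨u, hu, hd⟩ := h6 v
    exact ⟨u, hu, hd.trans (by exact_mod_cast hg (comp_le X v))⟩
  rw [rule_correct h2 h4 h5 lab v (h7 v), rule_correct h2 h4 h5 lab u (h7 u)]
  exact (h4 _ _ hvu).symm

/-! ## Caterpillars -/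

/-- The height function: path vertices `x < m` have height `x`, the pendant vertex `m + j` has
height `2 j + 1` and is attached to the path vertex `2 j + 2`. -/
def ht (m x : ℕ) : ℕ := if x < m then x else 2 * (x - m) + 1

/-- Adjacency of the caterpillar. -/
def catAdj (m x y : ℕ) : Prop :=
  (x < m ∧ y < m ∧ (y = x + 1 ∨ x = y + 1)) ∨
  (m ≤ x ∧ y < m ∧ y = 2 * (x - m) + 2) ∨ (m ≤ y ∧ x < m ∧ x = 2 * (y - m) + 2)

/-- The caterpillar on `n` vertices whose path has `m` vertices. -/
def cat (m n : ℕ) : SimpleGraph (Fin n) where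
  Adj x y := catAdj m x y
  symm := ⟨by
    intro x y h
    unfold catAdj at *
    omega⟩
  loopless := ⟨by
    intro x h
    unfold catAdj at h
    omega⟩

theorem cat_adj_ht {m n : ℕ} {x y : Fin n} (h : (cat m n).Adj x y) :
    ht m x = ht m y + 1 ∨ ht m y = ht m x + 1 := by
  have h' : catAdj m x y := h
  unfold catAdj at h'
  unfold ht
  split_ifs <;> omega

theorem walk_ht {m n : ℕ} {x y : Fin n} (p : (cat m n).Walk x y) :
    ht m x ≤ ht m y + p.length ∧ ht m y ≤ ht m x + p.length := by
  induction p with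
  | nil => simp
  | cons h q ih =>
    have := cat_adj_ht h
    rw [SimpleGraph.Walk.length_cons]
    omega

theorem edist_ht {m n : ℕ} {x y : Fin n} {r : ℕ} (h : (cat m n).edist x y ≤ r) :
    ht m x ≤ ht m y + r ∧ ht m y ≤ ht m x + r := by
  have hne : (cat m n).edist x y ≠ ⊤ := by
    intro h'; rw [h'] at h; simp at h
  obtain ⟨p, hp⟩ := SimpleGraph.exists_walk_of_edist_ne_top hne
  have hpr : p.length ≤ r := by
    rw [← hp] at h; exact_mod_cast h
  have := walk_ht p
  omega

theorem cat_ball_card {m n : ℕ} (v : Fin n) (r : ℕ) :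
    (ballSet (cat m n) v r).ncard ≤ 4 * r + 2 := by
  classical
  have hsub : Fin.val '' ballSet (cat m n) v r ⊆
      ↑((Finset.Icc (ht m v - r) (ht m v + r)) ∪
        (Finset.Icc (ht m v - r) (ht m v + r)).image (fun y => m + (y - 1) / 2)) := by
    rintro _ ⟨u, hu, rfl⟩
    have h := edist_ht (show (cat m n).edist v u ≤ r from hu)
    rw [Finset.coe_union]
    by_cases hm : (u : ℕ) < m
    · left
      have : ht m u = u := by simp [ht, hm]
      rw [Finset.mem_coe, Finset.mem_Icc]
      omega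
    · right
      have h1 : ht m u = 2 * (u - m) + 1 := by simp [ht, hm]
      rw [Finset.mem_coe, Finset.mem_image]
      refine ⟨ht m u, ?_, ?_⟩
      · rw [Finset.mem_Icc]; omega
      · rw [h1]; omega
  rw [← Set.ncard_image_of_injective _ Fin.val_injective]
  refine (Set.ncard_le_ncard hsub (Finset.finite_toSet _)).trans ?_
  rw [Set.ncard_coe_finset]
  refine (Finset.card_union_le _ _).trans ?_
  have h1 : (Finset.Icc (ht m v - r) (ht m v + r)).card ≤ 2 * r + 1 := by
    rw [Nat.card_Icc]; omega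
  have h2 := Finset.card_image_le (s := Finset.Icc (ht m v - r) (ht m v + r))
    (f := fun y => m + (y - 1) / 2)
  omega

theorem cat_nbr_le {m n : ℕ} (v : Fin n) : ((cat m n).neighborSet v).ncard ≤ 3 := by
  classical
  have hsub : Fin.val '' (cat m n).neighborSet v ⊆
      ↑(if (v : ℕ) < m then ({(v : ℕ) - 1, (v : ℕ) + 1, m + ((v : ℕ) - 2) / 2} : Finset ℕ)
        else {2 * ((v : ℕ) - m) + 2}) := by
    rintro _ ⟨u, hu, rfl⟩
    have h : catAdj m v u := hu
    unfold catAdj at h
    split_ifs with hm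
    · rw [Finset.mem_coe]
      simp only [Finset.mem_insert, Finset.mem_singleton]
      omega
    · rw [Finset.mem_coe]
      simp only [Finset.mem_singleton]
      omega
  rw [← Set.ncard_image_of_injective _ Fin.val_injective]
  refine (Set.ncard_le_ncard hsub (Finset.finite_toSet _)).trans ?_
  rw [Set.ncard_coe_finset]
  split_ifs
  · exact Finset.card_le_three
  · simp

/-- A vertex with at least three neighbours is a path vertex at an even position. -/
theorem cat_three {m n : ℕ} (v : Fin n) (h : ((cat m n).neighborSet v).ncard = 3) :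
    (v : ℕ) < m ∧ Even (v : ℕ) := by
  classical
  by_contra hcon
  have hsub : Fin.val '' (cat m n).neighborSet v ⊆
      ↑(if (v : ℕ) < m then ({(v : ℕ) - 1, (v : ℕ) + 1} : Finset ℕ)
        else {2 * ((v : ℕ) - m) + 2}) := by
    rintro _ ⟨u, hu, rfl⟩
    have h : catAdj m v u := hu
    unfold catAdj at h
    split_ifs with hm
    · have hodd : ¬ Even (v : ℕ) := fun h => hcon ⟨hm, h⟩
      rw [Nat.not_even_iff_odd] at hodd
      obtain ⟨k, hk⟩ := hodd
      rw [Finset.mem_coe]
      simp only [Finset.mem_insert, Finset.mem_singleton]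
      omega
    · rw [Finset.mem_coe]
      simp only [Finset.mem_singleton]
      omega
  have h2 : ((cat m n).neighborSet v).ncard ≤ 2 := by
    rw [← Set.ncard_image_of_injective _ Fin.val_injective]
    refine (Set.ncard_le_ncard hsub (Finset.finite_toSet _)).trans ?_
    rw [Set.ncard_coe_finset]
    split_ifs
    · exact Finset.card_le_two
    · simp
  omega

/-- The even path vertices `2, 4, ..., 2 p` have exactly three neighbours. -/
theorem cat_three' {p l : ℕ} (hl : 1 ≤ l) (v : Fin (3 * p + 1 + l)) (j : ℕ) (hj : j < p)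
    (hv : (v : ℕ) = 2 * j + 2) :
    ((cat (2 * p + 1 + l) (3 * p + 1 + l)).neighborSet v).ncard = 3 := by
  refine le_antisymm (cat_nbr_le v) ?_
  have hsub : ({⟨2 * j + 1, by omega⟩, ⟨2 * j + 3, by omega⟩, ⟨2 * p + 1 + l + j, by omega⟩} :
      Set (Fin (3 * p + 1 + l))) ⊆
      (cat (2 * p + 1 + l) (3 * p + 1 + l)).neighborSet v := by
    intro u hu
    simp only [Set.mem_insert_iff, Set.mem_singleton_iff] at hu
    show catAdj _ _ _
    unfold catAdj
    rcases hu with rfl | rfl | rfl
    · left; simp only; omega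
    · left; simp only; omega
    · right; right; simp only; omega
  refine le_trans ?_ (Set.ncard_le_ncard hsub (Set.toFinite _))
  rw [Set.ncard_insert_of_notMem, Set.ncard_pair]
  · simp only [ne_eq, Fin.mk.injEq]; omega
  · simp only [Set.mem_insert_iff, Set.mem_singleton_iff, Fin.mk.injEq, not_or]; omega

/-- Distances along the path. -/
theorem edist_path {m n : ℕ} (i : ℕ) (k : ℕ) (h : i + k < m) (hn : m ≤ n) :
    (cat m n).edist ⟨i, by omega⟩ ⟨i + k, by omega⟩ ≤ k := by
  induction k with
  | zero => simp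
  | succ k ih =>
    have h1 := ih (by omega)
    have h2 : (cat m n).Adj ⟨i + k, by omega⟩ ⟨i + (k + 1), by omega⟩ := by
      show catAdj _ _ _
      unfold catAdj
      left; simp only; omega
    have h3 : (cat m n).edist ⟨i + k, by omega⟩ ⟨i + (k + 1), by omega⟩ ≤ 1 :=
      SimpleGraph.edist_le_one_iff_adj_or_eq.2 (Or.inl h2)
    calc (cat m n).edist ⟨i, by omega⟩ ⟨i + (k + 1), by omega⟩ ≤
        (cat m n).edist ⟨i, by omega⟩ ⟨i + k, by omega⟩ +
        (cat m n).edist ⟨i + k, by omega⟩ ⟨i + (k + 1), by omega⟩ :=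
          SimpleGraph.edist_triangle
      _ ≤ (k : ℕ∞) + 1 := add_le_add h1 h3
      _ = ((k + 1 : ℕ) : ℕ∞) := by push_cast; rfl

theorem path_reachable {m n : ℕ} (hn : m ≤ n) (i j : ℕ) (hi : i < m) (hj : j < m) :
    (cat m n).Reachable ⟨i, by omega⟩ ⟨j, by omega⟩ := by
  have key : ∀ i k : ℕ, ∀ h : i + k < m,
      (cat m n).Reachable ⟨i, by omega⟩ ⟨i + k, by omega⟩ := by
    intro i k h
    apply SimpleGraph.reachable_of_edist_ne_top
    intro h'
    have := edist_path i k h hn
    rw [h'] at this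
    simp at this
  rcases le_total i j with h | h
  · obtain ⟨k, rfl⟩ := Nat.exists_eq_add_of_le h
    exact key i k hj
  · obtain ⟨k, rfl⟩ := Nat.exists_eq_add_of_le h
    exact (key j k hi).symm

theorem edist_path' {m n : ℕ} (hn : m ≤ n) (i j : ℕ) (hi : i < m) (hj : j < m) (k : ℕ)
    (h1 : i ≤ j + k) (h2 : j ≤ i + k) :
    (cat m n).edist ⟨i, by omega⟩ ⟨j, by omega⟩ ≤ k := by
  rcases le_total i j with h | h
  · obtain ⟨d, rfl⟩ := Nat.exists_eq_add_of_le h
    exact (edist_path i d hj hn).trans (by exact_mod_cast (by omega : d ≤ k))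
  · obtain ⟨d, rfl⟩ := Nat.exists_eq_add_of_le h
    rw [SimpleGraph.edist_comm]
    exact (edist_path j d hi hn).trans (by exact_mod_cast (by omega : d ≤ k))

theorem pendant_adj {p l : ℕ} (x : Fin (3 * p + 1 + l))
    (hx : ¬ (x : ℕ) < 2 * p + 1 + l) :
    (cat (2 * p + 1 + l) (3 * p + 1 + l)).Adj x
      ⟨2 * (x - (2 * p + 1 + l)) + 2, by have := x.isLt; omega⟩ := by
  have := x.isLt
  refine Or.inr (Or.inl ⟨by omega, ?_, rfl⟩)
  show 2 * ((x : ℕ) - (2 * p + 1 + l)) + 2 < 2 * p + 1 + l
  omega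

theorem cat_conn {p l : ℕ} (hp : 1 ≤ p) : (cat (2 * p + 1 + l) (3 * p + 1 + l)).Connected := by
  have h0 : ∀ x : Fin (3 * p + 1 + l),
      (cat (2 * p + 1 + l) (3 * p + 1 + l)).Reachable ⟨0, by omega⟩ x := by
    intro x
    have hx' := x.isLt
    by_cases hx : (x : ℕ) < 2 * p + 1 + l
    · exact path_reachable (by omega) 0 x (by omega) hx
    · exact (path_reachable (by omega) 0 _ (by omega) (by omega)).trans
        (pendant_adj x hx).symm.reachable
  have : Nonempty (Fin (3 * p + 1 + l)) := ⟨⟨0, by omega⟩⟩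
  exact ⟨fun x y => (h0 x).symm.trans (h0 y)⟩

theorem cat_side (m n : ℕ) : ∃ side : Fin n → Bool,
    (∀ x y, (cat m n).Adj x y → side x ≠ side y) ∧
    ∀ x, ((cat m n).neighborSet x).ncard = 3 → side x = true := by
  refine ⟨fun x => decide (Even (ht m x)), ?_, ?_⟩
  · intro x y hxy h'
    have h := cat_adj_ht hxy
    have h'' : Even (ht m x) ↔ Even (ht m y) := by
      simpa using h'
    rcases h with h | h
    · rw [h, Nat.even_add_one] at h''
      tauto
    · rw [h, Nat.even_add_one] at h''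
      tauto
  · intro x hx
    obtain ⟨h3, h4⟩ := cat_three x hx
    have : ht m x = x := by simp [ht, h3]
    simp [this, h4]

theorem cat_near {p l k : ℕ} (hp : 1 ≤ p) (hl : 1 ≤ l) (hlog : l ≤ k) (h2 : 2 ≤ k)
    (x : Fin (3 * p + 1 + l)) :
    ∃ u, ((cat (2 * p + 1 + l) (3 * p + 1 + l)).neighborSet u).ncard = 3 ∧
      (cat (2 * p + 1 + l) (3 * p + 1 + l)).edist x u ≤ (k : ℕ) := by
  have hx' := x.isLt
  have main : ∀ (hi : (x : ℕ) < 2 * p + 1 + l) (j : ℕ) (hj : j < p),
      (x : ℕ) ≤ 2 * j + 2 + l → 2 * j + 2 ≤ (x : ℕ) + 2 →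
      (cat (2 * p + 1 + l) (3 * p + 1 + l)).edist x ⟨2 * j + 2, by omega⟩ ≤ (k : ℕ) := by
    intro hi j hj h3 h4
    exact edist_path' (by omega) x (2 * j + 2) hi (by omega) _ (by omega) (by omega)
  by_cases hx : (x : ℕ) < 2 * p + 1 + l
  · by_cases hx2 : (x : ℕ) < 2 * p + 1
    · refine ⟨⟨2 * (((x : ℕ) - 1) / 2) + 2, by omega⟩, ?_, ?_⟩
      · exact cat_three' hl _ (((x : ℕ) - 1) / 2) (by omega) rfl
      · exact main hx _ (by omega) (by omega) (by omega)
    · refine ⟨⟨2 * (p - 1) + 2, by omega⟩, ?_, ?_⟩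
      · exact cat_three' hl _ (p - 1) (by omega) rfl
      · exact main hx _ (by omega) (by omega) (by omega)
  · refine ⟨⟨2 * ((x : ℕ) - (2 * p + 1 + l)) + 2, by omega⟩, ?_, ?_⟩
    · exact cat_three' hl _ ((x : ℕ) - (2 * p + 1 + l)) (by omega) rfl
    · have h3 : (cat (2 * p + 1 + l) (3 * p + 1 + l)).edist x
          ⟨2 * (x - (2 * p + 1 + l)) + 2, by omega⟩ ≤ 1 :=
        SimpleGraph.edist_le_one_iff_adj_or_eq.2 (Or.inl (pendant_adj x hx))
      exact h3.trans (by exact_mod_cast (by omega : 1 ≤ k))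

/-- The caterpillar as a finite graph. -/
def catGraph (p l : ℕ) : FinGraph where
  V := Fin (3 * p + 1 + l)
  fin := inferInstance
  G := cat (2 * p + 1 + l) (3 * p + 1 + l)

theorem catGraph_n (p l : ℕ) : (catGraph p l).n = 3 * p + 1 + l :=
  Fintype.card_fin _

theorem catGraph_mem {g : ℕ → ℕ} (p l : ℕ) (hp : 1 ≤ p) (hl : 1 ≤ l)
    (hlog : l ≤ g (3 * p + 1 + l)) (h2 : 2 ≤ g (3 * p + 1 + l)) :
    catGraph p l ∈ {X ∈ cls g | X.G.Connected} := by
  refine ⟨⟨fun v => cat_nbr_le v, fun v r => cat_ball_card v r,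
    cat_side _ _, fun v => ?_⟩, cat_conn hp⟩
  have h1 : comp (catGraph p l).G v = Set.univ :=
    Set.eq_univ_of_forall fun w => (cat_conn hp).preconnected v w
  have h3 : (comp (catGraph p l).G v).ncard = 3 * p + 1 + l := by
    rw [h1, Set.ncard_univ, Nat.card_eq_fintype_card]
    exact catGraph_n p l
  rw [h3]
  exact cat_near hp hl hlog h2 v

/-! ## The lower bound -/

/-- The balls along the bare part of the path. -/
theorem mem_ball_bare {p l t w : ℕ} (hw1 : 2 * p + t ≤ w) (hw2 : w + t < 2 * p + 1 + l)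
    (x : Fin (3 * p + 1 + l)) :
    x ∈ ballSet (cat (2 * p + 1 + l) (3 * p + 1 + l)) ⟨w, by omega⟩ t ↔
      w ≤ (x : ℕ) + t ∧ (x : ℕ) ≤ w + t := by
  have hx' := x.isLt
  constructor
  · intro h
    have h1 := edist_ht (show (cat (2 * p + 1 + l) (3 * p + 1 + l)).edist ⟨w, by omega⟩ x ≤ t
      from h)
    simp only [ht] at h1
    split_ifs at h1 <;> omega
  · intro h
    exact edist_path' (by omega) w x (by omega) (by omega) _ (by omega) (by omega)

/-- The first system of identifiers. -/
def id1 {n : ℕ} (x : Fin n) : ℕ := (x : ℕ) + 1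

/-- The second system of identifiers: rotate the identifiers on the interval `[a, b]`. -/
def id2 {n : ℕ} (a b : ℕ) (x : Fin n) : ℕ :=
  if (x : ℕ) = a then b + 1 else if a < (x : ℕ) ∧ (x : ℕ) ≤ b then (x : ℕ) else (x : ℕ) + 1

theorem id1_inj {n : ℕ} : Function.Injective (id1 (n := n)) := by
  intro x y h
  unfold id1 at h
  exact Fin.ext (by omega)

theorem id2_inj {n a b : ℕ} (hab : a ≤ b) : Function.Injective (id2 (n := n) a b) := by
  intro x y h
  unfold id2 at h
  apply Fin.ext
  split_ifs at h <;> omega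

/-- Adjacency of two bare path vertices. -/
theorem cat_adj_bare {p l : ℕ} {x y : Fin (3 * p + 1 + l)} (hx1 : 2 * p < (x : ℕ))
    (hx : (x : ℕ) < 2 * p + 1 + l) (hy1 : 2 * p < (y : ℕ)) (hy : (y : ℕ) < 2 * p + 1 + l) :
    (cat (2 * p + 1 + l) (3 * p + 1 + l)).Adj x y ↔ ((y : ℕ) = x + 1 ∨ (x : ℕ) = y + 1) := by
  have hx' := x.isLt
  have hy' := y.isLt
  show catAdj _ _ _ ↔ _
  unfold catAdj
  omega

/-- A walk along the path. -/
theorem path_walk {m n : ℕ} (hn : m ≤ n) (i : ℕ) (k : ℕ) (h : i + k < m) :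
    ∃ q : (cat m n).Walk ⟨i, by omega⟩ ⟨i + k, by omega⟩, q.length = k := by
  induction k with
  | zero => exact ⟨SimpleGraph.Walk.nil, rfl⟩
  | succ k ih =>
    obtain ⟨q, hq⟩ := ih (by omega)
    have h2 : (cat m n).Adj ⟨i + k, by omega⟩ ⟨i + (k + 1), by omega⟩ := by
      show catAdj _ _ _
      unfold catAdj
      left; simp only; omega
    exact ⟨q.concat h2, by rw [SimpleGraph.Walk.length_concat, hq]⟩

/-- Shifting a ball on the bare part of the path by one. -/
theorem shift_iso {p l T w : ℕ} (hw1 : 2 * p + T < w) (hw2 : w + 1 + T < 2 * p + 1 + l)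
    (lab1 lab2 : Fin (3 * p + 1 + l) → ℕ)
    (hlab : ∀ x y : Fin (3 * p + 1 + l), w ≤ (x : ℕ) + T → (x : ℕ) ≤ w + T →
      (y : ℕ) = x + 1 → lab2 y = lab1 x) :
    (view (cat (2 * p + 1 + l) (3 * p + 1 + l)) lab1 ⟨w, by omega⟩ T).Iso
      (view (cat (2 * p + 1 + l) (3 * p + 1 + l)) lab2 ⟨w + 1, by omega⟩ T) := by
  have hm1 : ∀ x : ballSet (cat (2 * p + 1 + l) (3 * p + 1 + l)) ⟨w, by omega⟩ T,
      w ≤ (x : ℕ) + T ∧ (x : ℕ) ≤ w + T := fun x =>
    (mem_ball_bare (by omega) (by omega) x.1).1 x.2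
  have hm2 : ∀ x : ballSet (cat (2 * p + 1 + l) (3 * p + 1 + l)) ⟨w + 1, by omega⟩ T,
      w + 1 ≤ (x : ℕ) + T ∧ (x : ℕ) ≤ w + 1 + T := fun x =>
    (mem_ball_bare (by omega) (by omega) x.1).1 x.2
  let e : ballSet (cat (2 * p + 1 + l) (3 * p + 1 + l)) ⟨w, by omega⟩ T ≃
      ballSet (cat (2 * p + 1 + l) (3 * p + 1 + l)) ⟨w + 1, by omega⟩ T :=
    { toFun := fun x => ⟨⟨(x : ℕ) + 1, by have := hm1 x; omega⟩,
        (mem_ball_bare (by omega) (by omega) _).2 (by have := hm1 x; simp only; omega)⟩
      invFun := fun x => ⟨⟨(x : ℕ) - 1, by have := hm2 x; omega⟩,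
        (mem_ball_bare (by omega) (by omega) _).2 (by have := hm2 x; simp only; omega)⟩
      left_inv := fun x => by
        apply Subtype.ext; apply Fin.ext
        simp only; omega
      right_inv := fun x => by
        have := hm2 x
        apply Subtype.ext; apply Fin.ext
        simp only; omega }
  refine ⟨⟨e, ?_⟩, ?_, ?_⟩
  · intro x y
    have hx := hm1 x
    have hy := hm1 y
    have hx2 := hm2 (e x)
    have hy2 := hm2 (e y)
    show (cat (2 * p + 1 + l) (3 * p + 1 + l)).Adj (e x).1 (e y).1 ↔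
      (cat (2 * p + 1 + l) (3 * p + 1 + l)).Adj x.1 y.1
    rw [cat_adj_bare (by omega) (by omega) (by omega) (by omega),
      cat_adj_bare (by omega) (by omega) (by omega) (by omega)]
    have e1 : ((e x).1 : ℕ) = x.1 + 1 := rfl
    have e2 : ((e y).1 : ℕ) = y.1 + 1 := rfl
    omega
  · rfl
  · intro x
    exact hlab x.1 (e x).1 (hm1 x).1 (hm1 x).2 rfl

theorem lower_bound {g : ℕ → ℕ} {c : ℕ} (hc : 1 ≤ c) {t : ℕ → ℕ}
    (h : DetSolvable twoCol {X ∈ cls g | X.G.Connected} c t)
    (p l : ℕ) (hp : 1 ≤ p) (hl : 1 ≤ l)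
    (hlog : l ≤ g (3 * p + 1 + l)) (h2 : 2 ≤ g (3 * p + 1 + l)) :
    l < 4 * t (3 * p + 1 + l) + 2 := by
  by_contra hcon
  obtain ⟨A, hA⟩ := h
  have hX := catGraph_mem p l hp hl hlog h2
  have hn := catGraph_n p l
  have hA1 := hA _ hX
  rw [hn] at hA1
  generalize ht0 : t (3 * p + 1 + l) = T at *
  generalize A (3 * p + 1 + l) = R at *
  have hpow : 3 * p + 1 + l ≤ (3 * p + 1 + l) ^ c := Nat.le_self_pow (by omega) _
  have hs1 := hA1 id1 id1_inj (by
    intro v
    have := v.isLt
    unfold id1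
    omega)
  have hs2 := hA1 (id2 (2 * p + 2 * T + 1) (2 * p + 4 * T + 2)) (id2_inj (by omega)) (by
    intro v
    have := v.isLt
    unfold id2
    split_ifs <;> omega)
  have hc1 := (twoCol_solves_iff (V := Fin (3 * p + 1 + l))
    (cat (2 * p + 1 + l) (3 * p + 1 + l)) _).1 hs1
  have hc2 := (twoCol_solves_iff (V := Fin (3 * p + 1 + l))
    (cat (2 * p + 1 + l) (3 * p + 1 + l)) _).1 hs2
  have hle : 2 * p + 1 + l ≤ 3 * p + 1 + l := by omega
  -- the walk from `u` to `w` and the walk from `u` to `w + 1`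
  obtain ⟨q1, hq1⟩ := path_walk hle (2 * p + T) (2 * T + 1) (by omega)
  obtain ⟨q2, hq2⟩ := path_walk hle (2 * p + T) (2 * T + 2) (by omega)
  have hev1 := even_walk_iff (fun x y hxy => (hc1 x y hxy).symm) q1
  have hev2 := even_walk_iff (fun x y hxy => (hc2 x y hxy).symm) q2
  rw [hq1] at hev1
  rw [hq2] at hev2
  have hodd : ¬ Even (2 * T + 1) := by
    rw [Nat.not_even_iff_odd]; exact ⟨T, rfl⟩
  have heven : Even (2 * T + 2) := ⟨T + 1, by omega⟩
  have hne := fun hh => hodd (hev1.2 hh)
  have heq := hev2.1 heven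
  apply hne
  -- the views of `u`
  have hu : R.out (view (cat (2 * p + 1 + l) (3 * p + 1 + l)) id1 ⟨2 * p + T, by omega⟩ T) =
      R.out (view (cat (2 * p + 1 + l) (3 * p + 1 + l))
        (id2 (2 * p + 2 * T + 1) (2 * p + 4 * T + 2)) ⟨2 * p + T, by omega⟩ T) := by
    refine R.inv _ _ ⟨RelIso.refl _, rfl, fun v => ?_⟩
    have hv := (mem_ball_bare (p := p) (l := l) (t := T) (w := 2 * p + T) (by omega) (by omega)
      v.1).1 v.2
    show id2 _ _ (v.1 : Fin (3 * p + 1 + l)) = id1 (v.1 : Fin (3 * p + 1 + l))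
    unfold id1 id2
    split_ifs <;> omega
  have hw : R.out (view (cat (2 * p + 1 + l) (3 * p + 1 + l)) id1
        ⟨2 * p + T + (2 * T + 1), by omega⟩ T) =
      R.out (view (cat (2 * p + 1 + l) (3 * p + 1 + l))
        (id2 (2 * p + 2 * T + 1) (2 * p + 4 * T + 2)) ⟨2 * p + T + (2 * T + 1) + 1, by omega⟩ T) := by
    refine R.inv _ _ (shift_iso (by omega) (by omega) _ _ ?_)
    intro x y hx1 hx2 hxy
    unfold id1 id2
    split_ifs <;> omega
  exact hu.trans (heq.trans hw.symm)

/-! ## Disjoint unions -/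

theorem sum_walk_inl {V W : Type} {G : SimpleGraph V} {H : SimpleGraph W} :
    ∀ {x y : V ⊕ W} (q : (G ⊕g H).Walk x y) (v : V), x = Sum.inl v →
      ∃ u, y = Sum.inl u ∧ ∃ q' : G.Walk v u, q'.length = q.length := by
  intro x y q
  induction q with
  | nil => intro v hv; exact ⟨v, hv, SimpleGraph.Walk.nil, rfl⟩
  | @cons a b c hab q ih =>
    intro v hv
    subst hv
    cases b with
    | inl b =>
      obtain ⟨u, hu, q', hq'⟩ := ih b rfl
      have hvb : G.Adj v b := by simpa using hab
      exact ⟨u, hu, SimpleGraph.Walk.cons hvb q', by simp [hq']⟩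
    | inr b => simp at hab

theorem sum_walk_inr {V W : Type} {G : SimpleGraph V} {H : SimpleGraph W} :
    ∀ {x y : V ⊕ W} (q : (G ⊕g H).Walk x y) (v : W), x = Sum.inr v →
      ∃ u, y = Sum.inr u ∧ ∃ q' : H.Walk v u, q'.length = q.length := by
  intro x y q
  induction q with
  | nil => intro v hv; exact ⟨v, hv, SimpleGraph.Walk.nil, rfl⟩
  | @cons a b c hab q ih =>
    intro v hv
    subst hv
    cases b with
    | inr b =>
      obtain ⟨u, hu, q', hq'⟩ := ih b rfl
      have hvb : H.Adj v b := by simpa using hab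
      exact ⟨u, hu, SimpleGraph.Walk.cons hvb q', by simp [hq']⟩
    | inl b => simp at hab

theorem edist_hom_le {V W : Type} {G : SimpleGraph V} {H : SimpleGraph W} (e : G →g H)
    (u v : V) : H.edist (e u) (e v) ≤ G.edist u v := by
  by_cases h : G.edist u v = ⊤
  · rw [h]; exact le_top
  · obtain ⟨p, hp⟩ := SimpleGraph.exists_walk_of_edist_ne_top h
    rw [← hp]
    have := SimpleGraph.edist_le (p.map e)
    simpa using this

theorem comp_hom_le {V W : Type} [Finite W] {G : SimpleGraph V} {H : SimpleGraph W} (e : G →g H)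
    (he : Function.Injective e) (v : V) : (comp G v).ncard ≤ (comp H (e v)).ncard := by
  have h1 : e '' comp G v ⊆ comp H (e v) := by
    rintro _ ⟨x, hx, rfl⟩
    have hx' : G.Reachable v x := hx
    exact hx'.map e
  rw [← Set.ncard_image_of_injective _ he]
  exact Set.ncard_le_ncard h1 (Set.toFinite _)

theorem ball_sum_inl {V W : Type} {G : SimpleGraph V} {H : SimpleGraph W} (v : V) (r : ℕ) :
    ballSet (G ⊕g H) (Sum.inl v) r ⊆ Sum.inl '' ballSet G v r := by
  intro x hx
  have hx' : (G ⊕g H).edist (Sum.inl v) x ≤ r := hx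
  have hne : (G ⊕g H).edist (Sum.inl v) x ≠ ⊤ := by
    intro h; rw [h] at hx'; simp at hx'
  obtain ⟨q, hq⟩ := SimpleGraph.exists_walk_of_edist_ne_top hne
  obtain ⟨u, rfl, q', hq'⟩ := sum_walk_inl q v rfl
  refine ⟨u, ?_, rfl⟩
  show G.edist v u ≤ r
  refine (SimpleGraph.edist_le q').trans ?_
  rw [hq', hq]; exact hx'

theorem ball_sum_inr {V W : Type} {G : SimpleGraph V} {H : SimpleGraph W} (v : W) (r : ℕ) :
    ballSet (G ⊕g H) (Sum.inr v) r ⊆ Sum.inr '' ballSet H v r := by
  intro x hx
  have hx' : (G ⊕g H).edist (Sum.inr v) x ≤ r := hx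
  have hne : (G ⊕g H).edist (Sum.inr v) x ≠ ⊤ := by
    intro h; rw [h] at hx'; simp at hx'
  obtain ⟨q, hq⟩ := SimpleGraph.exists_walk_of_edist_ne_top hne
  obtain ⟨u, rfl, q', hq'⟩ := sum_walk_inr q v rfl
  refine ⟨u, ?_, rfl⟩
  show H.edist v u ≤ r
  refine (SimpleGraph.edist_le q').trans ?_
  rw [hq', hq]; exact hx'

theorem nbr_sum_inl {V W : Type} {G : SimpleGraph V} {H : SimpleGraph W} (v : V) :
    ((G ⊕g H).neighborSet (Sum.inl v)).ncard = (G.neighborSet v).ncard := by
  have : (G ⊕g H).neighborSet (Sum.inl v) = Sum.inl '' G.neighborSet v := by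
    ext x
    cases x <;> simp
  rw [this, Set.ncard_image_of_injective _ Sum.inl_injective]

theorem nbr_sum_inr {V W : Type} {G : SimpleGraph V} {H : SimpleGraph W} (v : W) :
    ((G ⊕g H).neighborSet (Sum.inr v)).ncard = (H.neighborSet v).ncard := by
  have : (G ⊕g H).neighborSet (Sum.inr v) = Sum.inr '' H.neighborSet v := by
    ext x
    cases x <;> simp
  rw [this, Set.ncard_image_of_injective _ Sum.inr_injective]

theorem cls_union {g : ℕ → ℕ} (hg : Monotone g) (X Y : FinGraph) (hX : X ∈ cls g)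
    (hY : Y ∈ cls g) : X.union Y ∈ cls g := by
  obtain ⟨x2, x3, ⟨sx, x4, x5⟩, x6⟩ := hX
  obtain ⟨y2, y3, ⟨sy, y4, y5⟩, y6⟩ := hY
  refine ⟨?_, ?_, ⟨Sum.elim sx sy, ?_, ?_⟩, ?_⟩
  · rintro (v | v)
    · exact (nbr_sum_inl v).trans_le (x2 v)
    · exact (nbr_sum_inr v).trans_le (y2 v)
  · rintro (v | v) r
    · refine (Set.ncard_le_ncard (ball_sum_inl v r) (Set.toFinite _)).trans ?_
      rw [Set.ncard_image_of_injective _ Sum.inl_injective]
      exact x3 v r
    · refine (Set.ncard_le_ncard (ball_sum_inr v r) (Set.toFinite _)).trans ?_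
      rw [Set.ncard_image_of_injective _ Sum.inr_injective]
      exact y3 v r
  · rintro (u | u) (v | v) huv
    · exact x4 u v (by simpa [FinGraph.union] using huv)
    · simp [FinGraph.union] at huv
    · simp [FinGraph.union] at huv
    · exact y4 u v (by simpa [FinGraph.union] using huv)
  · rintro (v | v) hv
    · exact x5 v ((nbr_sum_inl v).symm.trans hv)
    · exact y5 v ((nbr_sum_inr v).symm.trans hv)
  · rintro (v | v)
    · obtain ⟨u, hu, hd⟩ := x6 v
      refine ⟨Sum.inl u, (nbr_sum_inl u).trans hu, ?_⟩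
      have h1 : (X.G ⊕g Y.G).edist (Sum.inl v) (Sum.inl u) ≤ X.G.edist v u :=
        edist_hom_le (SimpleGraph.Embedding.sumInl (G := X.G) (H := Y.G)).toHom v u
      refine h1.trans (hd.trans ?_)
      exact_mod_cast hg (comp_hom_le
        (SimpleGraph.Embedding.sumInl (G := X.G) (H := Y.G)).toHom Sum.inl_injective v)
    · obtain ⟨u, hu, hd⟩ := y6 v
      refine ⟨Sum.inr u, (nbr_sum_inr u).trans hu, ?_⟩
      have h1 : (X.G ⊕g Y.G).edist (Sum.inr v) (Sum.inr u) ≤ Y.G.edist v u :=
        edist_hom_le (SimpleGraph.Embedding.sumInr (G := X.G) (H := Y.G)).toHom v u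
      refine h1.trans (hd.trans ?_)
      exact_mod_cast hg (comp_hom_le
        (SimpleGraph.Embedding.sumInr (G := X.G) (H := Y.G)).toHom Sum.inr_injective v)

/-! ## Components -/

/-- A walk that starts in a component stays in it. -/
theorem walk_in_comp {V : Type} {G : SimpleGraph V} (v0 : V) {x y : V} (p : G.Walk x y)
    (hx : x ∈ comp G v0) :
    ∃ hy : y ∈ comp G v0, ∃ q : (G.induce (comp G v0)).Walk ⟨x, hx⟩ ⟨y, hy⟩,
      q.length = p.length := by
  induction p with
  | nil => exact ⟨hx, SimpleGraph.Walk.nil, rfl⟩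
  | @cons a b c hab p ih =>
    have hx' : G.Reachable v0 a := hx
    have hb : b ∈ comp G v0 := hx'.trans hab.reachable
    obtain ⟨hy, q, hq⟩ := ih hb
    have hadj : (G.induce (comp G v0)).Adj ⟨a, hx⟩ ⟨b, hb⟩ := hab
    exact ⟨hy, SimpleGraph.Walk.cons hadj q, by simp [hq]⟩

theorem nbr_comp {V : Type} {G : SimpleGraph V} (v0 : V) (v : comp G v0) :
    ((G.induce (comp G v0)).neighborSet v).ncard = (G.neighborSet v.1).ncard := by
  have : G.neighborSet v.1 = Subtype.val '' (G.induce (comp G v0)).neighborSet v := by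
    ext w
    constructor
    · intro hw
      have hw' : G.Adj v.1 w := hw
      have hv : G.Reachable v0 v.1 := v.2
      exact ⟨⟨w, hv.trans hw'.reachable⟩, hw', rfl⟩
    · rintro ⟨u, hu, rfl⟩
      exact hu
  rw [this, Set.ncard_image_of_injective _ Subtype.val_injective]

theorem cls_component {g : ℕ → ℕ} (hg : Monotone g) (X : FinGraph) (hX : X ∈ cls g) (v0 : X.V) :
    X.component v0 ∈ cls g := by
  obtain ⟨x2, x3, ⟨sx, x4, x5⟩, x6⟩ := hX
  refine ⟨fun v => (nbr_comp v0 v).trans_le (x2 v.1), ?_, ⟨fun v => sx v.1, ?_, ?_⟩, ?_⟩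
  · intro v r
    refine le_trans ?_ (x3 v.1 r)
    have h1 : Subtype.val '' ballSet (X.G.induce (comp X.G v0)) v r ⊆ ballSet X.G v.1 r := by
      rintro _ ⟨u, hu, rfl⟩
      have hu' : (X.G.induce (comp X.G v0)).edist v u ≤ r := hu
      exact (edist_hom_le (SimpleGraph.Embedding.induce (comp X.G v0)).toHom v u).trans hu'
    rw [← Set.ncard_image_of_injective (ballSet (X.component v0).G v r) Subtype.val_injective]
    exact Set.ncard_le_ncard h1 (Set.toFinite _)
  · intro u v huv
    exact x4 _ _ huv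
  · intro v hv
    exact x5 _ ((nbr_comp v0 v).symm.trans hv)
  · intro v
    obtain ⟨u, hu, hd⟩ := x6 v.1
    have hne : X.G.edist v.1 u ≠ ⊤ := by
      intro h'; rw [h'] at hd; simp at hd
    obtain ⟨p, hp⟩ := SimpleGraph.exists_walk_of_edist_ne_top hne
    obtain ⟨hy, q, hq⟩ := walk_in_comp v0 p v.2
    refine ⟨⟨u, hy⟩, (nbr_comp v0 ⟨u, hy⟩).trans hu, ?_⟩
    have h1 : (X.G.induce (comp X.G v0)).edist v ⟨u, hy⟩ ≤ X.G.edist v.1 u := by
      rw [← hp, ← hq]
      exact SimpleGraph.edist_le q
    have h2 : (comp X.G v.1).ncard ≤ (comp (X.G.induce (comp X.G v0)) v).ncard := by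
      have h3 : comp X.G v.1 ⊆ Subtype.val '' comp (X.G.induce (comp X.G v0)) v := by
        intro w hw
        have hw' : X.G.Reachable v.1 w := hw
        obtain ⟨p'⟩ := hw'
        obtain ⟨hy', q', _⟩ := walk_in_comp v0 p' v.2
        exact ⟨⟨w, hy'⟩, q'.reachable, rfl⟩
      refine (Set.ncard_le_ncard h3 (Set.toFinite _)).trans ?_
      rw [Set.ncard_image_of_injective _ Subtype.val_injective]
    exact h1.trans (hd.trans (by exact_mod_cast hg h2))

/-! ## Growth rates -/

theorem growth_rate :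
    Filter.Tendsto (fun r : ℕ => Real.log ((4 * r + 2 : ℕ) : ℝ) / r) Filter.atTop (nhds 0) := by
  have h1 : Filter.Tendsto (fun r : ℕ => ((4 * r + 2 : ℕ) : ℝ)) Filter.atTop Filter.atTop := by
    apply tendsto_natCast_atTop_atTop.comp
    apply Filter.tendsto_atTop_mono (f := fun r : ℕ => r) (fun r => by omega)
    exact Filter.tendsto_id
  have h2 : (fun r : ℕ => Real.log ((4 * r + 2 : ℕ) : ℝ)) =o[Filter.atTop]
      (fun r : ℕ => ((4 * r + 2 : ℕ) : ℝ)) := Real.isLittleO_log_id_atTop.comp_tendsto h1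
  have h3 : (fun r : ℕ => ((4 * r + 2 : ℕ) : ℝ)) =O[Filter.atTop] (fun r : ℕ => (r : ℝ)) := by
    apply Asymptotics.IsBigO.of_bound 6
    filter_upwards [Filter.eventually_ge_atTop 1] with r hr
    have : (1 : ℝ) ≤ r := by exact_mod_cast hr
    rw [Real.norm_of_nonneg (by positivity), Real.norm_of_nonneg (by positivity)]
    push_cast
    linarith
  exact (h2.trans_isBigO h3).tendsto_div_nhds_zero

theorem iter_log (k : ℕ) : ∀ x : ℝ, x ≤ k + 1 → ∃ j ≤ k, (Real.logb 2)^[j] x ≤ 1 := by
  induction k with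
  | zero => intro x hx; exact ⟨0, le_rfl, by simpa using hx⟩
  | succ k ih =>
    intro x hx
    by_cases h1 : x ≤ 1
    · exact ⟨0, by omega, by simpa using h1⟩
    · push Not at h1
      have h2 : Real.logb 2 x ≤ k + 1 := by
        rw [Real.logb_le_iff_le_rpow (by norm_num) (by linarith)]
        refine hx.trans ?_
        have h3 : k + 1 < 2 ^ (k + 1) := Nat.lt_two_pow_self
        have h4 : ((k + 1 + 1 : ℕ) : ℝ) ≤ ((2 ^ (k + 1) : ℕ) : ℝ) := by exact_mod_cast h3
        have h5 : (2 : ℝ) ^ ((k : ℝ) + 1) = ((2 ^ (k + 1) : ℕ) : ℝ) := by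
          push_cast
          rw [← Real.rpow_natCast]
          push_cast
          rfl
        rw [h5]
        refine le_trans (le_of_eq ?_) h4
        push_cast
        ring
      obtain ⟨j, hj, hj2⟩ := ih _ h2
      exact ⟨j + 1, by omega, by rw [Function.iterate_succ_apply]; exact hj2⟩

theorem logStar_tower (k : ℕ) : logStar (2 ^ (2 ^ k)) ≤ k + 2 := by
  obtain ⟨j, hj, hj2⟩ := iter_log k k (by linarith)
  have h1 : (Real.logb 2)^[j + 2] ((2 ^ (2 ^ k) : ℕ) : ℝ) ≤ 1 := by
    rw [Function.iterate_succ_apply, Function.iterate_succ_apply]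
    have h2 : Real.logb 2 ((2 ^ (2 ^ k) : ℕ) : ℝ) = ((2 ^ k : ℕ) : ℝ) := by
      push_cast
      rw [Real.logb_pow]
      rw [Real.logb_self_eq_one (by norm_num)]
      push_cast
      ring
    have h3 : Real.logb 2 ((2 ^ k : ℕ) : ℝ) = (k : ℝ) := by
      push_cast
      rw [Real.logb_pow]
      rw [Real.logb_self_eq_one (by norm_num)]
      ring
    rw [h2, h3]
    exact hj2
  exact (Nat.sInf_le (s := {k : ℕ | (Real.logb 2)^[k] _ ≤ 1}) h1).trans (by omega)

theorem log_upper : (fun n : ℕ => ((Nat.log 2 n + 1 : ℕ) : ℝ)) =O[Filter.atTop]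
    (fun n : ℕ => Real.log n) := by
  apply Asymptotics.IsBigO.of_bound (2 / Real.log 2)
  filter_upwards [Filter.eventually_ge_atTop 2] with n hn
  have hlog2 : 0 < Real.log 2 := Real.log_pos (by norm_num)
  have h1 : (Nat.log 2 n : ℝ) ≤ Real.logb 2 n := by
    have := Real.natLog_le_logb n 2
    exact_mod_cast this
  have h2 : (1 : ℝ) ≤ Nat.log 2 n := by
    have : 1 ≤ Nat.log 2 n := Nat.log_pos (by norm_num) hn
    exact_mod_cast this
  have h3 : 0 ≤ Real.log n := Real.log_natCast_nonneg n
  rw [Real.norm_of_nonneg (by positivity), Real.norm_of_nonneg h3]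
  push_cast
  have h4 : 2 / Real.log 2 * Real.log n = 2 * Real.logb 2 n := by
    rw [Real.logb]; ring
  rw [h4]
  linarith

/-! ## The main result -/

theorem exists_params (n G : ℕ) (hn : 7 ≤ n) (hG : 3 ≤ G) (hGn : G ≤ n) :
    ∃ p l : ℕ, 1 ≤ p ∧ 1 ≤ l ∧ n = 3 * p + 1 + l ∧ l ≤ G ∧ G ≤ l + 6 := by
  rcases le_total G (n - 4) with h | h
  · refine ⟨(n - 1 - (G - 2)) / 3, n - 1 - 3 * ((n - 1 - (G - 2)) / 3), ?_⟩
    omega
  · refine ⟨(n - 1 - (n - 4 - 2)) / 3, n - 1 - 3 * ((n - 1 - (n - 4 - 2)) / 3), ?_⟩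
    omega

theorem det_lower {g : ℕ → ℕ} (hgn : ∀ n, g n ≤ n) {c : ℕ} (hc : 1 ≤ c) {t : ℕ → ℕ}
    (h : DetSolvable twoCol {X ∈ cls g | X.G.Connected} c t) (n : ℕ) : g n < 4 * t n + 8 := by
  by_contra hcon
  have h0 := hgn n
  obtain ⟨p, l, hp, hl, hnn, h1, h2⟩ := exists_params n (g n) (by omega) (by omega) h0
  have h4 := lower_bound hc h p l hp hl (by rw [← hnn]; exact h1) (by rw [← hnn]; omega)
  rw [← hnn] at h4
  omega

theorem not_isBigO {g t : ℕ → ℕ} (hg : Filter.Tendsto g Filter.atTop Filter.atTop)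
    (hlow : ∀ n, g n < 4 * t n + 8) (h : ℕ → ℝ)
    (hh : h =o[Filter.atTop] (fun n => (g n : ℝ))) :
    ¬ (fun n => (t n : ℝ)) =O[Filter.atTop] h := by
  intro hO
  have h1 : (fun n => (t n : ℝ)) =o[Filter.atTop] (fun n => (g n : ℝ)) := hO.trans_isLittleO hh
  have h2 := h1.def (show (0 : ℝ) < 1 / 8 by norm_num)
  have h3 := hg.eventually_ge_atTop 16
  obtain ⟨n, hn2, hn3⟩ := (h2.and h3).exists
  rw [Real.norm_of_nonneg (by positivity), Real.norm_of_nonneg (by positivity)] at hn2
  have h4 : (g n : ℝ) < 4 * (t n : ℝ) + 8 := by exact_mod_cast hlow n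
  have h5 : (16 : ℝ) ≤ g n := by exact_mod_cast hn3
  linarith

theorem main {g : ℕ → ℕ} (hg : Monotone g) (hg' : Filter.Tendsto g Filter.atTop Filter.atTop)
    (hgn : ∀ n, g n ≤ n) :
    IsClass (cls g) ∧ (∀ X Y : FinGraph, X ∈ cls g → Y ∈ cls g → X.union Y ∈ cls g) ∧
    (∀ X : FinGraph, X ∈ cls g → ∀ v, X.component v ∈ cls g) ∧ SubexpGrowth (cls g) ∧
    (∀ X ∈ cls g, (∀ v, (X.G.neighborSet v).ncard ≤ 3) ∧
      ∀ v r, (ballSet X.G v r).ncard ≤ 4 * r + 2) ∧
    (∀ d : ℝ, RandSolvable twoCol (cls g) d (fun n => g n + 1)) ∧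
    (∀ c : ℕ, DetSolvable twoCol (cls g) c (fun n => g n + 1)) ∧
    (∀ c : ℕ, 1 ≤ c → ∀ t : ℕ → ℕ, DetSolvable twoCol {X ∈ cls g | X.G.Connected} c t →
      (∀ n, g n < 4 * t n + 8) ∧
      ∀ h : ℕ → ℝ, h =o[Filter.atTop] (fun n => (g n : ℝ)) →
        ¬ (fun n => (t n : ℝ)) =O[Filter.atTop] h) := by
  refine ⟨cls_isClass g, cls_union hg, cls_component hg, ⟨3, fun r => 4 * r + 2, growth_rate,
    fun X hX => ⟨hX.1, hX.2.1⟩⟩, fun X hX => ⟨hX.1, hX.2.1⟩, ?_, ?_, ?_⟩
  · intro d
    refine ⟨fun _ => rule _, fun X hX => ?_⟩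
    have hs := fun b : X.V → ℕ → Bool => cls_solves hg X hX b
    constructor
    · have : {b : X.V → ℕ → Bool | twoCol.Solves X.G (fun v => (rule (ℕ → Bool)).out
          (view X.G b v (g X.n + 1)))} = Set.univ :=
        Set.eq_univ_of_forall hs
      exact this ▸ MeasurableSet.univ
    · have : {b : X.V → ℕ → Bool | ¬ twoCol.Solves X.G (fun v => (rule (ℕ → Bool)).out
          (view X.G b v (g X.n + 1)))} = ∅ := by
        apply Set.eq_empty_of_forall_notMem
        intro b hb
        exact hb (hs b)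
      rw [this]
      simp
  · intro c
    exact ⟨fun _ => rule _, fun X hX id _ _ => cls_solves hg X hX id⟩
  · intro c hc t ht
    exact ⟨det_lower hgn hc ht, not_isBigO hg' (det_lower hgn hc ht)⟩

/-- A sequence of natural numbers that dominates `(log₂ n - 8) / 4` is not `O(log* n)`. -/
theorem not_logStar {t : ℕ → ℕ} (hlow : ∀ n, Nat.log 2 n < 4 * t n + 8) :
    ¬ (fun n => (t n : ℝ)) =O[Filter.atTop] (fun n => (logStar n : ℝ)) := by
  intro hO
  obtain ⟨C, hC, hb⟩ := hO.exists_pos
  rw [Asymptotics.isBigOWith_iff, Filter.eventually_atTop] at hb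
  obtain ⟨N, hN⟩ := hb
  -- `2 ^ k < 4 C (k + 2) + 8` for all large `k`
  have hk : ∀ k : ℕ, N ≤ k → (2 : ℝ) ^ k < 4 * C * (k + 2) + 8 := by
    intro k hkN
    have h1 : k ≤ 2 ^ (2 ^ k) := (Nat.lt_two_pow_self.le).trans
      (Nat.pow_le_pow_right (by norm_num) Nat.lt_two_pow_self.le)
    have h3 := hlow (2 ^ (2 ^ k))
    rw [Nat.log_pow (by norm_num)] at h3
    have h4 := hN (2 ^ (2 ^ k)) (hkN.trans h1)
    rw [Real.norm_of_nonneg (by positivity), Real.norm_of_nonneg (by positivity)] at h4
    have h5 : (logStar (2 ^ (2 ^ k)) : ℝ) ≤ k + 2 := by exact_mod_cast logStar_tower k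
    have h6 : ((2 ^ k : ℕ) : ℝ) < 4 * (t (2 ^ (2 ^ k)) : ℝ) + 8 := by exact_mod_cast h3
    push_cast at h6
    nlinarith
  have hlim : Filter.Tendsto (fun k : ℕ => (4 * C * (k + 2) + 8) / (2 : ℝ) ^ k) Filter.atTop
      (nhds 0) := by
    have h1 : Filter.Tendsto (fun k : ℕ => (k : ℝ) / (2 : ℝ) ^ k) Filter.atTop (nhds 0) := by
      simpa using tendsto_pow_const_div_const_pow_of_one_lt 1 (by norm_num : (1 : ℝ) < 2)
    have h2 : Filter.Tendsto (fun k : ℕ => (1 : ℝ) / (2 : ℝ) ^ k) Filter.atTop (nhds 0) := by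
      simpa using tendsto_pow_const_div_const_pow_of_one_lt 0 (by norm_num : (1 : ℝ) < 2)
    have h3 := (h1.const_mul (4 * C)).add (h2.const_mul (8 * C + 8))
    simp only [mul_zero, add_zero] at h3
    refine h3.congr (fun k => ?_)
    ring
  have h1 := hlim.eventually (gt_mem_nhds (show (0 : ℝ) < 1 by norm_num))
  rw [Filter.eventually_atTop] at h1
  obtain ⟨K, hK⟩ := h1
  have h2 := hK (max K N) (le_max_left _ _)
  have h3 := hk (max K N) (le_max_right _ _)
  rw [div_lt_one (by positivity)] at h2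
  linarith

/-- There is an LCL problem `P` with the following properties.
(1) For every nondecreasing unbounded `g` with `g n ≤ n` there is a class `F` of finite graphs of
maximum degree at most 3 in which every ball of radius `r` has at most `4 r + 2` vertices, closed
under isomorphism, disjoint unions and connected components, on which `P` is solved in `g n + 1`
rounds by an algorithm (randomised as well as deterministic) and every deterministic algorithm with
distinct identifiers from `{1, ..., n ^ c}` needs more than `(g n - 8) / 4` rounds, already for the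
connected graphs of `F`; so its complexity is not `O(h)` for any `h = o(g)`.
(2) There is a class `F` with these closure properties and of bounded degree and subexponential
growth on which `P` has randomised complexity `O(log n)` but not deterministic complexity
`O(log* n)`. -/
theorem result : ∃ P : LCL,
    (∀ g : ℕ → ℕ, Monotone g → Filter.Tendsto g Filter.atTop Filter.atTop → (∀ n, g n ≤ n) →
      ∃ F : Set FinGraph,
        IsClass F ∧ (∀ X Y : FinGraph, X ∈ F → Y ∈ F → X.union Y ∈ F) ∧
        (∀ X : FinGraph, X ∈ F → ∀ v, X.component v ∈ F) ∧ SubexpGrowth F ∧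
        (∀ X ∈ F, (∀ v, (X.G.neighborSet v).ncard ≤ 3) ∧
          ∀ v r, (ballSet X.G v r).ncard ≤ 4 * r + 2) ∧
        (∀ d : ℝ, RandSolvable P F d (fun n => g n + 1)) ∧
        (∀ c : ℕ, DetSolvable P F c (fun n => g n + 1)) ∧
        (∀ c : ℕ, 1 ≤ c → ∀ t : ℕ → ℕ, DetSolvable P {X ∈ F | X.G.Connected} c t →
          (∀ n, g n < 4 * t n + 8) ∧
          ∀ h : ℕ → ℝ, h =o[Filter.atTop] (fun n => (g n : ℝ)) →
            ¬ (fun n => (t n : ℝ)) =O[Filter.atTop] h)) ∧
    (∃ F : Set FinGraph,
      IsClass F ∧ (∀ X Y : FinGraph, X ∈ F → Y ∈ F → X.union Y ∈ F) ∧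
      (∀ X : FinGraph, X ∈ F → ∀ v, X.component v ∈ F) ∧ SubexpGrowth F ∧
      (∃ t : ℕ → ℕ, (fun n => (t n : ℝ)) =O[Filter.atTop] (fun n : ℕ => Real.log n) ∧
        ∀ d : ℝ, RandSolvable P F d t) ∧
      (∀ c : ℕ, 1 ≤ c → ¬ ∃ t : ℕ → ℕ,
        (fun n => (t n : ℝ)) =O[Filter.atTop] (fun n => (logStar n : ℝ)) ∧
          DetSolvable P F c t)) := by
  refine ⟨twoCol, fun g hg hg' hgn => ⟨cls g, main hg hg' hgn⟩, ?_⟩
  have hmono : Monotone (Nat.log 2) := fun a b h => Nat.log_mono_right h
  have htend : Filter.Tendsto (Nat.log 2) Filter.atTop Filter.atTop := by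
    refine Filter.tendsto_atTop_atTop.2 fun b => ⟨2 ^ b, fun n hn => ?_⟩
    exact (Nat.le_log_iff_pow_le (by norm_num) (by
      have : 0 < 2 ^ b := by positivity
      omega)).2 hn
  obtain ⟨h1, h2, h3, h4, _, h6, _, h8⟩ := main hmono htend (fun n => Nat.log_le_self 2 n)
  refine ⟨cls (Nat.log 2), h1, h2, h3, h4, ⟨fun n => Nat.log 2 n + 1, log_upper, h6⟩, ?_⟩
  rintro c hc ⟨t, ht1, A, hA⟩
  exact not_logStar (h8 c hc t ⟨A, fun X hX => hA X hX.1⟩).1 ht1

end Pool.Agent.Results.MP_e442af_lc.NoSpeedup
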